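import Mathlib
import Pool.Agent.Lib_helper40.BorelAct
import Pool.Agent.Lib_helper40.UnitaryPolish
import Pool.Agent.Lib_helper69.UH.Assemble
import Pool.Agent.Lib_helper48.UH.Reduction

/-!
# MP_8215f0_lc: the unitary group induces a complete orbit equivalence relation

The notions of the problem: Borel actions of Polish groups on standard Borel spaces, orbit
equivalence relations, Borel reducibility, completeness.
-/

set_option autoImplicit false

open Set Topology Filter

namespace Pool.Agent.Results.MP_8215f0_lc.UnitaryComplete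

open Pool.Agent.UnitaryComplete Pool.Agent.BorelAct

universe u

/-- `E` is Borel reducible to `F`. -/
def BorelRed {X Y : Type} [MeasurableSpace X] [MeasurableSpace Y] (E : X → X → Prop)
    (F : Y → Y → Prop) : Prop :=
  ∃ f : X → Y, Measurable f ∧ ∀ x x', E x x' ↔ F (f x) (f x')

/-- The orbit equivalence relation of an action of `G` on `X`. -/
def Orb (G : Type u) (X : Type) [Group G] [MulAction G X] (x x' : X) : Prop :=
  ∃ g : G, g • x = x'

/-- The action of the topological group `G` on the measurable space `X` is Borel: the map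
`G × X → X` is Borel. -/
def BorelAction (G : Type u) (X : Type) [TopologicalSpace G] [Group G] [MeasurableSpace X]
    [MulAction G X] : Prop :=
  @Measurable (G × X) X (@Prod.instMeasurableSpace G X (borel G) _) _ fun p => p.1 • p.2

/-- The orbit equivalence relations of all Borel actions of Polish groups on standard Borel spaces
are Borel reducible to `E`. -/
def Complete {X : Type} [MeasurableSpace X] (E : X → X → Prop) : Prop :=
  ∀ (G : Type) [TopologicalSpace G] [Group G] [IsTopologicalGroup G] [PolishSpace G]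
    (Y : Type) [MeasurableSpace Y] [StandardBorelSpace Y] [MulAction G Y],
    BorelAction G Y → BorelRed (Orb G Y) E

theorem orb_iff {G : Type u} {X Y : Type} [Group G] [MulAction G X] [MulAction G Y] {f : X → Y}
    (hf : Function.Injective f) (he : ∀ (g : G) (x : X), f (g • x) = g • f x) (x x' : X) :
    Orb G X x x' ↔ Orb G Y (f x) (f x') := by
  refine exists_congr fun g => ?_
  rw [← he]
  exact ⟨fun h => by rw [h], fun h => hf h⟩

/-- The case of the Hilbert space of square summable sequences. -/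
theorem main_l2 : ∃ (X : Type) (_ : TopologicalSpace X) (_ : CompactSpace X) (_ : PolishSpace X)
    (_ : MeasurableSpace X) (_ : BorelSpace X) (_ : MulAction (UG (lp (fun _ : ℕ => ℂ) 2)) X),
    ContinuousSMul (UG (lp (fun _ : ℕ => ℂ) 2)) X ∧
      Complete (Orb (UG (lp (fun _ : ℕ => ℂ) 2)) X) := by
  obtain ⟨X, i1, i2, i3, i4, a, h1, h2, h3, h4⟩ :=
    Pool.Agent.UH48.final (fun G => Pool.Agent.UHz.factor G)
  let b : HilbertBasis ℕ ℂ (lp (fun _ : ℕ => ℂ) 2) := ⟨LinearIsometryEquiv.refl ℂ _⟩
  have hsep : TopologicalSpace.SeparableSpace (lp (fun _ : ℕ => ℂ) 2) :=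
    Pool.Agent.UH48.HH_separable
  have hsc : SecondCountableTopology (lp (fun _ : ℕ => ℂ) 2) :=
    UniformSpace.secondCountable_of_separable _
  have hpol : PolishSpace (UG (lp (fun _ : ℕ => ℂ) 2)) := (Phi_closed b).polishSpace
  let act : MulAction (UG (lp (fun _ : ℕ => ℂ) 2)) X :=
    { smul := fun U x => a U x
      one_smul := fun x => h1 x
      mul_smul := fun U V x => h2 V U x }
  have hcs : ContinuousSMul (UG (lp (fun _ : ℕ => ℂ) 2)) X := ⟨h3⟩
  let mG : MeasurableSpace (UG (lp (fun _ : ℕ => ℂ) 2)) := borel _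
  have bG : BorelSpace (UG (lp (fun _ : ℕ => ℂ) 2)) := ⟨rfl⟩
  have hmeas : Measurable fun p : UG (lp (fun _ : ℕ => ℂ) 2) × X => p.1 • p.2 :=
    continuous_smul.measurable
  obtain ⟨Z, j1, j2, j3, j4, j5, j6, j7, f₀, hf0, hinj0, heq0⟩ :=
    exists_embedding (UG (lp (fun _ : ℕ => ℂ) 2)) X hmeas
  refine ⟨Z, j1, j2, j3, j4, j5, j6, j7, ?_⟩
  intro G _ _ _ _ Y _ _ _ hact
  let mG' : MeasurableSpace G := borel G
  have bG' : BorelSpace G := ⟨rfl⟩
  obtain ⟨Z', k1, k2, k3, k4, k5, k6, k7, f₁, hf1, hinj1, heq1⟩ := exists_embedding G Y hact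
  obtain ⟨f₂, hf2, he2⟩ := h4 G Z'
  refine ⟨fun y => f₀ (f₂ (f₁ y)), hf0.comp (hf2.comp hf1), fun y y' => ?_⟩
  rw [orb_iff hinj1 heq1, ← orb_iff hinj0 heq0]
  exact he2 (f₁ y) (f₁ y')

theorem result (H : Type u) [NormedAddCommGroup H] [InnerProductSpace ℂ H] [CompleteSpace H]
    [TopologicalSpace.SeparableSpace H] (hH : ¬ FiniteDimensional ℂ H) :
    PolishSpace (UG H) ∧ IsTopologicalGroup (UG H) ∧
    ∃ (X : Type) (_ : TopologicalSpace X) (_ : CompactSpace X) (_ : PolishSpace X)
      (_ : MeasurableSpace X) (_ : BorelSpace X) (_ : MulAction (UG H) X),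
      ContinuousSMul (UG H) X ∧ BorelAction (UG H) X ∧ Complete (Orb (UG H) X) := by
  have hpol : PolishSpace (UG H) := polish hH
  refine ⟨hpol, inferInstance, ?_⟩
  obtain ⟨b⟩ := exists_natBasis hH
  obtain ⟨X, i1, i2, i3, i4, i5, i6, i7, i8⟩ := main_l2
  let act : MulAction (UG H) X := MulAction.compHom X (conj b.repr).toMonoidHom
  have hcs : ContinuousSMul (UG H) X := by
    refine ⟨?_⟩
    change Continuous fun p : UG H × X => (conj b.repr p.1) • p.2
    exact ((conj_cont b.repr).comp continuous_fst).smul continuous_snd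
  refine ⟨X, i1, i2, i3, i4, i5, act, hcs, ?_, ?_⟩
  · let mG : MeasurableSpace (UG H) := borel _
    have bG : BorelSpace (UG H) := ⟨rfl⟩
    have h1 : Measurable fun p : UG H × X => p.1 • p.2 := continuous_smul.measurable
    exact h1
  · intro G _ _ _ _ Y _ _ _ hact
    obtain ⟨f, hf, he⟩ := i8 G Y hact
    refine ⟨f, hf, fun y y' => (he y y').trans ⟨?_, ?_⟩⟩
    · rintro ⟨U, hU⟩
      refine ⟨(conj b.repr).symm U, ?_⟩
      change (conj b.repr ((conj b.repr).symm U)) • f y = f y'
      rw [MulEquiv.apply_symm_apply]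
      exact hU
    · rintro ⟨U, hU⟩
      exact ⟨conj b.repr U, hU⟩

end Pool.Agent.Results.MP_8215f0_lc.UnitaryComplete
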